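import Mathlib
import Pool.Agent.Q248.MulBasis

/-!
# Multiplicative bases over positive reals versus positive integers (MP_e3bb54)

We answer Q1 affirmatively (with `ε = 1/4`): for all large `n` there are a set `B` of `n` positive
reals and a set `A ⊆ ℕ ∩ BB` such that no set `C` of positive integers with
`|C| < n ^ (1 + ε)` satisfies `A ⊆ CC`.

Idea: take the incidence graph of points and lines of the affine plane over `𝔽_p`, which has no
four-cycle and `p ^ 3` edges, and rationals `x_i`, `y_j` such that `x_i y_j` is an integer if and only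
if `(i, j)` is an edge, with a private prime factor for every `x_i` and every `y_j`.
-/

namespace Pool.Agent.Results.MP_e3bb54_nt.RealVersusIntegerBases

/-- `A ⊆ XX`, where `XX = {x y : x, y ∈ X}`, for a finite set `A` of natural numbers and a finite set
`X` of reals. -/
def InRealProducts (A : Finset ℕ) (X : Finset ℝ) : Prop :=
  ∀ a ∈ A, ∃ x ∈ X, ∃ y ∈ X, (a : ℝ) = x * y

/-- `A ⊆ CC` for finite sets of natural numbers. -/
def InProducts (A C : Finset ℕ) : Prop :=
  ∀ a ∈ A, ∃ c ∈ C, ∃ d ∈ C, a = c * d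

/-- The incidence graph of the affine plane over `𝔽_p`. -/
def graph (p : ℕ) [Fact p.Prime] : Finset ((ZMod p × ZMod p) × (ZMod p × ZMod p)) :=
  Finset.univ.filter (fun e => e.1.2 = e.2.1 * e.1.1 + e.2.2)

theorem graph_free (p : ℕ) [Fact p.Prime] : ∀ i i' j j' : ZMod p × ZMod p, i ≠ i' → j ≠ j' →
    (i, j) ∈ graph p → (i, j') ∈ graph p → (i', j) ∈ graph p → (i', j') ∈ graph p → False := by
  rintro ⟨a, b⟩ ⟨a', b'⟩ ⟨m, c⟩ ⟨m', c'⟩ hi hj h1 h2 h3 h4
  simp only [graph, Finset.mem_filter, Finset.mem_univ, true_and] at h1 h2 h3 h4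
  have h : (m - m') * (a - a') = 0 := by linear_combination h2 - h1 + h3 - h4
  rcases mul_eq_zero.1 h with h | h
  · have hm : m = m' := sub_eq_zero.1 h
    subst hm
    apply hj
    rw [Prod.mk.injEq]
    exact ⟨rfl, by linear_combination h2 - h1⟩
  · have ha : a = a' := sub_eq_zero.1 h
    subst ha
    apply hi
    rw [Prod.mk.injEq]
    exact ⟨rfl, by linear_combination h1 - h3⟩

theorem graph_card (p : ℕ) [Fact p.Prime] : p ^ 3 ≤ (graph p).card := by
  have h : (Finset.univ : Finset (ZMod p × ZMod p × ZMod p)).card = p ^ 3 := by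
    rw [Finset.card_univ, Fintype.card_prod, Fintype.card_prod, ZMod.card]; ring
  rw [← h]
  apply Finset.card_le_card_of_injOn (fun t => ((t.1, t.2.1 * t.1 + t.2.2), (t.2.1, t.2.2)))
  · intro t _
    simp [graph]
  · rintro ⟨a, m, c⟩ _ ⟨a', m', c'⟩ _ h
    simp only [Prod.mk.injEq] at h
    obtain ⟨⟨h1, _⟩, h3, h4⟩ := h
    rw [h1, h3, h4]

/-- Affirmative answer to Q1. -/
theorem result : ∃ ε : ℝ, 0 < ε ∧ ∃ n₀ : ℕ, ∀ n : ℕ, n₀ < n →
    ∃ B : Finset ℝ, (∀ x ∈ B, 0 < x) ∧ B.card = n ∧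
      ∃ A : Finset ℕ, (∀ a ∈ A, 0 < a) ∧ InRealProducts A B ∧
        ∀ C : Finset ℕ, (∀ c ∈ C, 0 < c) → (C.card : ℝ) < (n : ℝ) ^ (1 + ε) →
          ¬ InProducts A C := by
  refine ⟨1 / 4, by norm_num, 21233664, ?_⟩
  intro n hn
  obtain ⟨k, hk⟩ : ∃ k : ℕ, k = Nat.sqrt (n / 8) := ⟨_, rfl⟩
  have hk1 : k * k ≤ n / 8 := by rw [hk]; exact Nat.sqrt_le _
  have hk2 : n / 8 < (k + 1) * (k + 1) := by rw [hk]; exact Nat.lt_succ_sqrt _
  have hk0 : k ≠ 0 := by
    rintro rfl
    omega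
  obtain ⟨p, hp, hkp, hp2⟩ := Nat.exists_prime_lt_and_le_two_mul k hk0
  have : Fact p.Prime := ⟨hp⟩
  obtain ⟨x, y, hx, hy, hxy, hmain⟩ := Q248.MulBasis.key (graph p) (graph_free p)
  -- the set `B`
  have hsub : (((Finset.univ.image fun i => ((x i : ℚ) : ℝ)) ∪
      (Finset.univ.image fun j => ((y j : ℚ) : ℝ)) : Finset ℝ) : Set ℝ) ⊆ Set.Ioi 0 := by
    intro z hz
    simp only [Finset.coe_union, Finset.coe_image, Finset.coe_univ, Set.image_univ, Set.mem_union,
      Set.mem_range] at hz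
    rcases hz with ⟨i, rfl⟩ | ⟨j, rfl⟩
    · exact Set.mem_Ioi.2 (by exact_mod_cast hx i)
    · exact Set.mem_Ioi.2 (by exact_mod_cast hy j)
  have hcardle : ((Finset.univ.image fun i => ((x i : ℚ) : ℝ)) ∪
      (Finset.univ.image fun j => ((y j : ℚ) : ℝ)) : Finset ℝ).card ≤ n := by
    refine (Finset.card_union_le _ _).trans ?_
    have h1 : (Finset.univ.image fun i => ((x i : ℚ) : ℝ)).card ≤ p * p := by
      refine Finset.card_image_le.trans ?_
      rw [Finset.card_univ, Fintype.card_prod, ZMod.card]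
    have h2 : (Finset.univ.image fun j => ((y j : ℚ) : ℝ)).card ≤ p * p := by
      refine Finset.card_image_le.trans ?_
      rw [Finset.card_univ, Fintype.card_prod, ZMod.card]
    have h3 : p * p ≤ (2 * k) * (2 * k) := Nat.mul_le_mul hp2 hp2
    have h4 : (2 * k) * (2 * k) = 4 * (k * k) := by ring
    omega
  obtain ⟨B, hBsub, hBpos, hBcard⟩ : ∃ B : Finset ℝ,
      ((Finset.univ.image fun i => ((x i : ℚ) : ℝ)) ∪
      (Finset.univ.image fun j => ((y j : ℚ) : ℝ)) : Finset ℝ) ⊆ B ∧ (∀ z ∈ B, 0 < z) ∧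
      B.card = n := by
    obtain ⟨t, ht1, ht2, ht3⟩ := (Set.Ioi_infinite (0 : ℝ)).exists_superset_ncard_eq hsub
      (Finset.finite_toSet _) (k := n) (by rw [Set.ncard_coe_finset]; exact hcardle)
    have hfin : t.Finite := by
      apply Set.finite_of_ncard_pos
      omega
    refine ⟨hfin.toFinset, ?_, ?_, ?_⟩
    · intro z hz
      rw [Set.Finite.mem_toFinset]
      exact ht1 (Finset.mem_coe.2 hz)
    · intro z hz
      rw [Set.Finite.mem_toFinset] at hz
      exact ht2 hz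
    · rw [← ht3, Set.ncard_eq_toFinset_card t hfin]
  refine ⟨B, hBpos, hBcard, ?_⟩
  have hch : ∀ e : (ZMod p × ZMod p) × (ZMod p × ZMod p), ∃ m : ℕ, e ∈ graph p →
      x e.1 * y e.2 = m := by
    intro e
    by_cases he : e ∈ graph p
    · obtain ⟨m, hm⟩ := hxy e he
      exact ⟨m, fun _ => hm⟩
    · exact ⟨0, fun h => absurd h he⟩
  choose f hf using hch
  refine ⟨(graph p).image f, ?_, ?_, ?_⟩
  · intro a ha
    obtain ⟨e, he, rfl⟩ := Finset.mem_image.1 ha
    have h1 : (0 : ℚ) < f e := by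
      rw [← hf e he]
      exact mul_pos (hx _) (hy _)
    exact_mod_cast h1
  · intro a ha
    obtain ⟨e, he, rfl⟩ := Finset.mem_image.1 ha
    refine ⟨((x e.1 : ℚ) : ℝ), hBsub ?_, ((y e.2 : ℚ) : ℝ), hBsub ?_, ?_⟩
    · exact Finset.mem_union_left _ (Finset.mem_image_of_mem (fun i => ((x i : ℚ) : ℝ)) (Finset.mem_univ _))
    · exact Finset.mem_union_right _ (Finset.mem_image_of_mem (fun i => ((y i : ℚ) : ℝ)) (Finset.mem_univ _))
    · have := hf e he
      rw [← Rat.cast_mul, this, Rat.cast_natCast]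
  · intro C _ hC hin
    have h1 : (graph p).card ≤ 3 * C.card := by
      apply hmain
      intro e he
      obtain ⟨c, hc, d, hd, h⟩ := hin (f e) (Finset.mem_image_of_mem f he)
      exact ⟨c, hc, d, hd, by rw [hf e he, h]; push_cast; rfl⟩
    have h2 := graph_card p
    -- numerical contradiction
    set z : ℝ := (n : ℝ) ^ (1 / 4 : ℝ) with hz
    have hn0 : (0 : ℝ) < n := by
      have : 0 < n := by omega
      exact_mod_cast this
    have hzpos : 0 < z := Real.rpow_pos_of_pos hn0 _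
    have hz4 : z ^ 4 = n := by
      rw [hz, ← Real.rpow_natCast, ← Real.rpow_mul hn0.le]; norm_num
    have hz5 : z ^ 5 = (n : ℝ) ^ (1 + 1 / 4 : ℝ) := by
      rw [hz, ← Real.rpow_natCast, ← Real.rpow_mul hn0.le]; norm_num
    have h3 : (p : ℝ) ^ 3 < 3 * z ^ 5 := by
      have h4 : ((p ^ 3 : ℕ) : ℝ) ≤ ((3 * C.card : ℕ) : ℝ) := by exact_mod_cast h2.trans h1
      push_cast at h4
      rw [hz5]
      linarith
    have h5 : z ^ 4 < 8 * (p : ℝ) ^ 2 := by
      rw [hz4]
      have h6 : n < 8 * (p * p) := by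
        have h7 : (k + 1) * (k + 1) ≤ p * p := Nat.mul_le_mul hkp hkp
        omega
      have h8 : (n : ℝ) < ((8 * (p * p) : ℕ) : ℝ) := by exact_mod_cast h6
      push_cast at h8
      nlinarith
    have hp0 : (0 : ℝ) < p := by exact_mod_cast hp.pos
    have h9 : (z ^ 4) ^ 3 < (8 * (p : ℝ) ^ 2) ^ 3 := by gcongr
    have h10 : ((p : ℝ) ^ 3) ^ 2 < (3 * z ^ 5) ^ 2 := by gcongr
    have h11 : z ^ 12 < 4608 * z ^ 10 := by nlinarith
    have h12 : z ^ 2 < 4608 := by
      have h13 : z ^ 12 = z ^ 2 * z ^ 10 := by ring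
      rw [h13] at h11
      exact lt_of_mul_lt_mul_right h11 (by positivity)
    have h14 : z ^ 4 < 21233664 := by nlinarith [sq_nonneg z]
    rw [hz4] at h14
    have h15 : n < 21233664 := by exact_mod_cast h14
    omega

end Pool.Agent.Results.MP_e3bb54_nt.RealVersusIntegerBases
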